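import Mathlib
import Pool.Agent.W889.SR.Stm2

/-!
# SR2-SEQ: a sequence of trees converging below a limit ordinal
-/

set_option autoImplicit false

namespace Pool.Agent.W440.SR

open Set Ordinal Pool.Agent.W889.SR

theorem ctb_iff (o : Ordinal.{0}) : (Iio o).Countable ↔ o.card ≤ Cardinal.aleph0 := by
  rw [← Cardinal.le_aleph0_iff_set_countable, Cardinal.mk_Iio_ordinal, Cardinal.lift_le_aleph0]

theorem ctb (l : Ordinal.{0}) (hl : (Iio l).Countable) : (Iio (ω * l + 2)).Countable := by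
  rw [ctb_iff] at hl ⊢
  rw [Ordinal.card_add, Ordinal.card_mul, Ordinal.card_omega0]
  refine Cardinal.add_le_aleph0.2 ⟨?_, ?_⟩
  · calc Cardinal.aleph0 * l.card ≤ Cardinal.aleph0 * Cardinal.aleph0 := mul_le_mul' le_rfl hl
      _ = Cardinal.aleph0 := Cardinal.aleph0_mul_aleph0
  · have : (2 : Ordinal.{0}).card = 2 := Ordinal.card_ofNat 2
    rw [this]
    exact (Cardinal.natCast_lt_aleph0 (n := 2)).le

theorem forest {X : Type} {r : X → X → Prop} (h : IsTree r) : IsForest r :=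
  ⟨h.refl, h.antisymm, h.trans, h.chain⟩

/-- the sequence of levels -/
noncomputable def gs (e : ℕ → Ordinal.{0}) (D : Ordinal.{0} → Ordinal.{0}) : ℕ → Ordinal.{0}
  | 0 => e 0
  | n + 1 => max (e (n + 1)) (max (gs e D n) (D (gs e D n)))

theorem seq : SEQ_stmt := by
  intro hCE hFAT hFEX l hl hlc
  obtain ⟨X, hX, r, rk, hfat, o, ho⟩ := hFEX (ω * l + 2) (ctb l hlc)
  have hlt1 : ω * l < ω * l + 2 := lt_add_of_pos_right _ (by norm_num)
  have hlt2 : ω * l + 1 < ω * l + 2 := by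
    have : (1 : Ordinal.{0}) < 2 := by norm_num
    exact (add_lt_add_iff_left _).2 this
  obtain ⟨p, -, hp⟩ := (hfat.inf o (ω * l) (by rw [ho]; exact hlt1)).nonempty
  obtain ⟨q, -, hq⟩ := (hfat.inf o (ω * l + 1) (by rw [ho]; exact hlt2)).nonempty
  have hpq : CL l r p r q := by
    intro γ hγ
    refine hFAT X r rk hfat γ p q (Or.inr ⟨?_, ?_⟩)
    · rw [hp]
      exact mul_le_mul_right hγ.le _
    · rw [hq]
      exact (mul_le_mul_right hγ.le _).trans (le_add_of_nonneg_right zero_le_one)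
  have hpq' : rk p < rk q := by
    rw [hp, hq]
    exact lt_add_of_pos_right _ zero_lt_one
  -- a counterexample of least rank
  obtain ⟨ρ, ⟨Z, y, hZ, hZy, hcl⟩, hmin⟩ := WellFounded.has_min (r := (· < · : Ordinal.{0} → _ → _))
    Ordinal.lt_wf {ρ | ∃ x y, rk x = ρ ∧ rk x < rk y ∧ CL l r x r y} ⟨rk p, p, q, rfl, hpq', hpq⟩
  subst hZ
  have hf := forest hfat.tree
  have key : ∀ γ, γ < l → ∃ c δ, CE γ r Z r c ∧ δ < l ∧ ¬ CE δ r Z r c := by
    intro γ hγ
    obtain ⟨y', hy', hrk⟩ := (hfat.inf y (rk Z) hZy).nonempty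
    have h2 : γ + 2 < l := by
      have h3 := hl.2 _ (hl.2 γ hγ)
      have h4 : γ + 1 + 1 = γ + 2 := by rw [add_assoc, one_add_one_eq_two]
      rwa [h4] at h3
    have h5 := hCE.symm _ _ _ _ _ _ _ (hcl _ h2)
    obtain ⟨c, hc, h6⟩ := hCE.child γ X X r r hf hf y Z y' h5 hy'
    have h7 : CE γ r Z r c :=
      hCE.trans γ X X X r Z r y' r c (hFAT X r rk hfat γ Z y' (Or.inl hrk.symm)) h6
    have h8 : ¬ CL l r Z r c := by
      intro h9
      have h10 : CL l r c r Z := fun δ hδ => hCE.symm _ _ _ _ _ _ _ (h9 δ hδ)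
      exact hmin (rk c) ⟨c, Z, rfl, hfat.lt _ _ hc, h10⟩ (hfat.lt _ _ hc)
    unfold CL at h8
    push Not at h8
    obtain ⟨δ, hδ, h9⟩ := h8
    exact ⟨c, δ, h7, hδ, h9⟩
  have hne : Nonempty X := ⟨o⟩
  choose! C D hC hD hCD using key
  obtain ⟨e, he⟩ := hlc.exists_eq_range ⟨0, hl.1⟩
  have hel : ∀ n, e n < l := by
    intro n
    have : e n ∈ Iio l := by
      rw [he]
      exact mem_range_self n
    exact this
  have hg : ∀ n, gs e D n < l := by
    intro n
    induction n with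
    | zero => exact hel 0
    | succ n ih => exact max_lt (hel _) (max_lt ih (hD _ ih))
  have hge : ∀ n, e n ≤ gs e D n := by
    intro n
    cases n with
    | zero => exact le_rfl
    | succ n => exact le_max_left _ _
  have hg1 : ∀ n, gs e D n ≤ gs e D (n + 1) := fun n =>
    (le_max_left _ _).trans (le_max_right _ _)
  have hg2 : ∀ n, D (gs e D n) ≤ gs e D (n + 1) := fun n =>
    (le_max_right _ _).trans (le_max_right _ _)
  have hmono : Monotone (gs e D) := monotone_nat_of_le_succ hg1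
  refine ⟨X, hX, r, fun n => C (gs e D n), gs e D, fun n => D (gs e D n), hfat.tree,
    ⟨hg, fun n => hD _ (hg n), ?_, ?_, ?_⟩⟩
  · intro γ hγ
    have : γ ∈ Iio l := hγ
    rw [he] at this
    obtain ⟨n, rfl⟩ := this
    exact ⟨n, hge n⟩
  · intro n m hnm
    have h1 := hCE.symm _ _ _ _ _ _ _ (hC _ (hg n))
    have h2 := hCE.mono _ _ (hmono hnm) _ _ _ _ _ _ (hC _ (hg m))
    exact hCE.trans _ _ _ _ _ _ _ _ _ _ h1 h2
  · intro n m hnm h
    have h1 : D (gs e D n) ≤ gs e D m := (hg2 n).trans (hmono hnm)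
    have h2 := hCE.mono _ _ h1 _ _ _ _ _ _ (hC _ (hg m))
    have h3 := hCE.symm _ _ _ _ _ _ _ h
    exact hCD _ (hg n) (hCE.trans _ _ _ _ _ _ _ _ _ _ h2 h3)

end Pool.Agent.W440.SR
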